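import Pool.Agent.V11105.TransDiam

/-!
Negative answer to Q2 of MP_0638d8_an: also when forward images of measurable sets are measurable,
the essential transfinite diameter of the iterates of a set of positive measure under a mixing map
need not converge to the transfinite diameter of the space.
-/

open MeasureTheory Filter Set Topology Pool.Agent.V11105.TransDiam

theorem Pool.Agent.Results.MP_0638d8_an.MixingEssTransDiam.result :
    ∃ (S : Type) (_ : MetricSpace S) (_ : MeasurableSpace S) (P : Measure S) (ψ : S → S)
      (A : Set S),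
      IsMixingSystem P ψ ∧ (∀ B : Set S, MeasurableSet B → MeasurableSet (ψ '' B)) ∧
      MeasurableSet A ∧ 0 < P A ∧
      (∀ n : ℕ, essRho P ((ψ^[n]) '' A) = 0) ∧ rho (univ : Set S) = 1 ∧
      ¬ Tendsto (fun n : ℕ => essRho P ((ψ^[n]) '' A)) atTop (𝓝 (rho (univ : Set S))) := by
  have hmeas : ∀ n : ℕ, MeasurableSet ((shift^[n]) '' A) := by
    intro n
    induction n with
    | zero => simpa using main.2.2.1
    | succ n ih =>
      rw [Function.iterate_succ', image_comp]
      exact main.2.1 _ ih
  have hess : ∀ n : ℕ, essRho P ((shift^[n]) '' A) = 0 := by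
    intro n
    apply le_antisymm _ bot_le
    unfold essRho
    refine iInf_le_of_le ⟨(shift^[n]) '' A, subset_rfl, hmeas n, rfl⟩ ?_
    exact (main.2.2.2.2.1 n).le
  refine ⟨Sq, inferInstance, inferInstance, P, shift, A, main.1, main.2.1, main.2.2.1,
    main.2.2.2.1, hess, main.2.2.2.2.2, ?_⟩
  simp only [hess, main.2.2.2.2.2]
  intro h
  have := tendsto_nhds_unique h tendsto_const_nhds
  simp at this
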