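import Pool.Agent.V11105.TransDiam

/-!
Negative answer to Q1 of MP_0638d8_an: the transfinite diameter of the iterates of a set of positive
measure under a mixing map need not converge to the transfinite diameter of the space.
-/

open MeasureTheory Filter Set Topology Pool.Agent.V11105.TransDiam

theorem Pool.Agent.Results.MP_0638d8_an.MixingTransDiam.result :
    ∃ (S : Type) (_ : MetricSpace S) (_ : MeasurableSpace S) (P : Measure S) (ψ : S → S)
      (A : Set S),
      IsMixingSystem P ψ ∧ MeasurableSet A ∧ 0 < P A ∧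
      (∀ n : ℕ, rho ((ψ^[n]) '' A) = 0) ∧ rho (univ : Set S) = 1 ∧
      ¬ Tendsto (fun n : ℕ => rho ((ψ^[n]) '' A)) atTop (𝓝 (rho (univ : Set S))) := by
  refine ⟨Sq, inferInstance, inferInstance, P, shift, A, main.1, main.2.2.1, main.2.2.2.1,
    main.2.2.2.2.1, main.2.2.2.2.2, ?_⟩
  simp only [main.2.2.2.2.1, main.2.2.2.2.2]
  intro h
  have := tendsto_nhds_unique h tendsto_const_nhds
  simp at this
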